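import Pool.Agent.H566R4.Stmts

/-! Task Cons of project H566-BOG. -/

set_option autoImplicit false

namespace Pool.Agent.H511R3.BOG

open MvPolynomial Module Pool.Agent.H566R4

/-- The product of the lines. -/
noncomputable def PL (k : Type) [Field k] (n : ℕ) (α : Fin n → k) : MvPolynomial (Fin 3) k :=
  ∏ i, (X 1 - C (α i) * X 2)

/-- The product which vanishes at the points. -/
noncomputable def PI (k : Type) [Field k] (c : ℕ) (β : Fin c → k) : MvPolynomial (Fin 3) k :=
  ∏ j, (X 0 - C (β j) * X 1)

/-- The index type. -/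
abbrev Ix (κ c : ℕ) : Type := (Σ s : Fin κ, Fin (s.1 + 1)) ⊕ Fin (κ - c + 1)

noncomputable def T1 (k : Type) [Field k] (κ : ℕ) (t : Σ s : Fin κ, Fin (s.1 + 1)) :
    MvPolynomial (Fin 3) k :=
  X 0 ^ t.2.1 * X 1 ^ (t.1.1 - t.2.1) * X 2 ^ (κ - t.1.1)

noncomputable def T2 (k : Type) [Field k] (m : ℕ) (t : Fin (m + 1)) :
    MvPolynomial (Fin 3) k :=
  X 0 ^ t.1 * X 1 ^ (m - t.1)

noncomputable def T (k : Type) [Field k] (κ c : ℕ) (β : Fin c → k) :
    Ix κ c → MvPolynomial (Fin 3) k :=
  Sum.elim (T1 k κ) (fun t => PI k c β * T2 k (κ - c) t)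

theorem T1_mono (k : Type) [Field k] (κ : ℕ) (t : Σ s : Fin κ, Fin (s.1 + 1)) :
    T1 k κ t = monomial (Finsupp.single 0 t.2.1 + Finsupp.single 1 (t.1.1 - t.2.1) +
      Finsupp.single 2 (κ - t.1.1)) 1 := by
  unfold T1
  simp only [X_pow_eq_monomial, monomial_mul, mul_one]

theorem T2_mono (k : Type) [Field k] (m : ℕ) (t : Fin (m + 1)) :
    T2 k m t = monomial (Finsupp.single 0 t.1 + Finsupp.single 1 (m - t.1)) 1 := by
  unfold T2
  simp only [X_pow_eq_monomial, monomial_mul, mul_one]

theorem T1_li (k : Type) [Field k] (κ : ℕ) : LinearIndependent k (T1 k κ) := by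
  have h := (MvPolynomial.basisMonomials (Fin 3) k).linearIndependent.comp
    (fun t : Σ s : Fin κ, Fin (s.1 + 1) => Finsupp.single (0 : Fin 3) t.2.1 +
      Finsupp.single 1 (t.1.1 - t.2.1) + Finsupp.single 2 (κ - t.1.1)) (by
      rintro ⟨s, i⟩ ⟨s', i'⟩ h
      have h0 := DFunLike.congr_fun h 0
      have h1 := DFunLike.congr_fun h 1
      have h2 := DFunLike.congr_fun h 2
      simp at h0 h1 h2
      have hs : s = s' := by
        apply Fin.ext
        have := s.2
        have := s'.2
        omega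
      subst hs
      have hi : i = i' := Fin.ext h0
      subst hi
      rfl)
  have e : T1 k κ = (MvPolynomial.basisMonomials (Fin 3) k) ∘
      (fun t : Σ s : Fin κ, Fin (s.1 + 1) => Finsupp.single (0 : Fin 3) t.2.1 +
      Finsupp.single 1 (t.1.1 - t.2.1) + Finsupp.single 2 (κ - t.1.1)) := by
    funext t
    rw [T1_mono, Function.comp_apply, coe_basisMonomials]
  rw [e]
  exact h

theorem T2_li (k : Type) [Field k] (m : ℕ) : LinearIndependent k (T2 k m) := by
  have h := (MvPolynomial.basisMonomials (Fin 3) k).linearIndependent.comp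
    (fun t : Fin (m + 1) => Finsupp.single (0 : Fin 3) t.1 +
      Finsupp.single 1 (m - t.1)) (by
      intro i i' h
      have h0 := DFunLike.congr_fun h 0
      simp at h0
      exact Fin.ext h0)
  have e : T2 k m = (MvPolynomial.basisMonomials (Fin 3) k) ∘
      (fun t : Fin (m + 1) => Finsupp.single (0 : Fin 3) t.1 +
      Finsupp.single 1 (m - t.1)) := by
    funext t
    rw [T2_mono, Function.comp_apply, coe_basisMonomials]
  rw [e]
  exact h

theorem lin_ne (k : Type) [Field k] (a : k) (u v : Fin 3) (huv : u ≠ v) :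
    (X u - C a * X v : MvPolynomial (Fin 3) k) ≠ 0 := by
  intro h
  have h1 := congrArg (MvPolynomial.eval (Pi.single u (1 : k))) h
  simp [huv.symm, Pi.single_apply] at h1

theorem PI_ne (k : Type) [Field k] (c : ℕ) (β : Fin c → k) : PI k c β ≠ 0 :=
  Finset.prod_ne_zero_iff.2 fun j _ => lin_ne k _ _ _ (by decide)

theorem PL_ne (k : Type) [Field k] (c : ℕ) (β : Fin c → k) : PL k c β ≠ 0 :=
  Finset.prod_ne_zero_iff.2 fun j _ => lin_ne k _ _ _ (by decide)

theorem mul_li (k : Type) [Field k] {ι : Type} (P : MvPolynomial (Fin 3) k) (hP : P ≠ 0)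
    (v : ι → MvPolynomial (Fin 3) k) (hv : LinearIndependent k v) :
    LinearIndependent k (fun t => P * v t) := by
  have h := hv.map' (LinearMap.mulLeft k P) (by
    rw [LinearMap.ker_eq_bot]
    intro a b hab
    exact mul_left_cancel₀ hP hab)
  exact h

/-- Setting the last variable to zero. -/
noncomputable def ph (k : Type) [Field k] : MvPolynomial (Fin 3) k →ₐ[k] MvPolynomial (Fin 3) k :=
  aeval ![X 0, X 1, 0]

theorem T_li (k : Type) [Field k] (κ c : ℕ) (β : Fin c → k) : LinearIndependent k (T k κ c β) := by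
  refine LinearIndependent.sum_type (T1_li k κ) (mul_li k _ (PI_ne k c β) _ (T2_li k (κ - c))) ?_
  rw [Submodule.disjoint_def]
  intro p h1 h2
  have e1 : ph k p = 0 := by
    have : Submodule.span k (Set.range (T1 k κ)) ≤ LinearMap.ker (ph k).toLinearMap := by
      rw [Submodule.span_le]
      rintro _ ⟨t, rfl⟩
      have ht := t.1.2
      have : κ - t.1.1 ≠ 0 := by omega
      simp [T1, ph, this]
    exact this h1
  have e2 : ph k p = p := by
    have : Submodule.span k (Set.range fun t => PI k c β * T2 k (κ - c) t) ≤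
        LinearMap.ker ((ph k).toLinearMap - LinearMap.id) := by
      rw [Submodule.span_le]
      rintro _ ⟨t, rfl⟩
      simp [T2, PI, ph, map_prod]
    have h3 := this h2
    rw [LinearMap.mem_ker, LinearMap.sub_apply, sub_eq_zero] at h3
    exact h3
  rw [← e2, e1]

theorem lin_hom (k : Type) [Field k] (a : k) (u v : Fin 3) :
    (X u - C a * X v : MvPolynomial (Fin 3) k).IsHomogeneous 1 :=
  (isHomogeneous_X k u).sub ((isHomogeneous_X k v).C_mul a)

theorem PL_hom (k : Type) [Field k] (n : ℕ) (α : Fin n → k) : (PL k n α).IsHomogeneous n := by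
  have h := IsHomogeneous.prod Finset.univ (fun i => (X 1 - C (α i) * X 2 :
    MvPolynomial (Fin 3) k)) (fun _ => 1) (fun i _ => lin_hom k _ _ _)
  simp only [Finset.sum_const, Finset.card_univ, Fintype.card_fin, smul_eq_mul, mul_one] at h
  exact h

theorem PI_hom (k : Type) [Field k] (n : ℕ) (α : Fin n → k) : (PI k n α).IsHomogeneous n := by
  have h := IsHomogeneous.prod Finset.univ (fun i => (X 0 - C (α i) * X 1 :
    MvPolynomial (Fin 3) k)) (fun _ => 1) (fun i _ => lin_hom k _ _ _)
  simp only [Finset.sum_const, Finset.card_univ, Fintype.card_fin, smul_eq_mul, mul_one] at h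
  exact h

theorem T_hom (k : Type) [Field k] (κ c : ℕ) (hc : c ≤ κ) (β : Fin c → k) (t : Ix κ c) :
    (T k κ c β t).IsHomogeneous κ := by
  rcases t with t | t
  · have h := ((isHomogeneous_X_pow (R := k) (0 : Fin 3) t.2.1).mul
      (isHomogeneous_X_pow (R := k) (1 : Fin 3) (t.1.1 - t.2.1))).mul
      (isHomogeneous_X_pow (R := k) (2 : Fin 3) (κ - t.1.1))
    have e : t.2.1 + (t.1.1 - t.2.1) + (κ - t.1.1) = κ := by
      have := t.1.2
      have := t.2.2
      omega
    rw [e] at h
    exact h
  · have h := (PI_hom k c β).mul ((isHomogeneous_X_pow (R := k) (0 : Fin 3) t.1).mul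
      (isHomogeneous_X_pow (R := k) (1 : Fin 3) (κ - c - t.1)))
    have e : c + (t.1 + (κ - c - t.1)) = κ := by
      have := t.2
      omega
    rw [e] at h
    exact h

theorem ev_PL (k : Type) [Field k] (K : Type) [Field K] [Algebra k K] (n : ℕ) (α : Fin n → k)
    (x : Fin 3 → K) : aeval x (PL k n α) = ∏ i, (x 1 - algebraMap k K (α i) * x 2) := by
  simp [PL, map_prod]

theorem ev_PI (k : Type) [Field k] (K : Type) [Field K] [Algebra k K] (n : ℕ) (α : Fin n → k)
    (x : Fin 3 → K) : aeval x (PI k n α) = ∏ i, (x 0 - algebraMap k K (α i) * x 1) := by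
  simp [PI, map_prod]

/-- The common zeros. -/
theorem zeros (k : Type) [Field k] (K : Type) [Field K] [Algebra k K] (n κ c : ℕ)
    (α : Fin n → k) (β : Fin c → k) (x : Fin 3 → K)
    (h : (∃ i, x 1 = algebraMap k K (α i) * x 2) ∨ ∃ j, x 2 = 0 ∧ x 0 = algebraMap k K (β j) * x 1)
    (t : Ix κ c) : aeval x (PL k n α * T k κ c β t) = 0 := by
  rw [map_mul]
  rcases h with ⟨i, hi⟩ | ⟨j, hj, hj'⟩
  · rw [ev_PL, Finset.prod_eq_zero (Finset.mem_univ i) (by rw [hi, sub_self]), zero_mul]
  · rcases t with t | t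
    · have : κ - t.1.1 ≠ 0 := by
        have := t.1.2
        omega
      simp [T, T1, hj, this]
    · have : aeval x (T k κ c β (Sum.inr t)) = 0 := by
        show aeval x (PI k c β * T2 k (κ - c) t) = 0
        rw [map_mul, ev_PI, Finset.prod_eq_zero (Finset.mem_univ j) (by rw [hj', sub_self]),
          zero_mul]
      rw [this, mul_zero]

theorem zeros_conv (k : Type) [Field k] (K : Type) [Field K] [Algebra k K] (n κ c : ℕ)
    (hc : c ≤ κ) (α : Fin n → k) (β : Fin c → k) (x : Fin 3 → K) (hx : x ≠ 0)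
    (h : ∀ t : Ix κ c, aeval x (PL k n α * T k κ c β t) = 0) :
    (∃ i, x 1 = algebraMap k K (α i) * x 2) ∨
      ∃ j, x 2 = 0 ∧ x 0 = algebraMap k K (β j) * x 1 := by
  by_cases hL : aeval x (PL k n α) = 0
  · left
    rw [ev_PL, Finset.prod_eq_zero_iff] at hL
    obtain ⟨i, -, hi⟩ := hL
    exact ⟨i, sub_eq_zero.1 hi⟩
  · right
    have hT : ∀ t : Ix κ c, aeval x (T k κ c β t) = 0 := by
      intro t
      have := h t
      rw [map_mul] at this
      exact (mul_eq_zero.1 this).resolve_left hL
    have hz : 0 < κ → x 2 = 0 := by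
      intro hκ
      have := hT (Sum.inl ⟨⟨0, hκ⟩, ⟨0, Nat.succ_pos _⟩⟩)
      simp [T, T1] at this
      exact this.1
    have h0 := hT (Sum.inr ⟨0, Nat.succ_pos _⟩)
    have h1 := hT (Sum.inr ⟨κ - c, Nat.lt_succ_self _⟩)
    have e0 : aeval x (PI k c β) * x 1 ^ (κ - c) = 0 := by
      simpa [T, T2] using h0
    have e1 : aeval x (PI k c β) * x 0 ^ (κ - c) = 0 := by
      simpa [T, T2] using h1
    have hPI : aeval x (PI k c β) = 0 := by
      by_contra hne
      have f0 := (mul_eq_zero.1 e0).resolve_left hne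
      have f1 := (mul_eq_zero.1 e1).resolve_left hne
      have hkc : κ - c ≠ 0 := by
        intro h0
        rw [h0, pow_zero] at f0
        exact one_ne_zero f0
      have g0 := pow_eq_zero_iff hkc |>.1 f0
      have g1 := pow_eq_zero_iff hkc |>.1 f1
      apply hx
      funext u
      fin_cases u
      · exact g1
      · exact g0
      · exact hz (by omega)
    rw [ev_PI, Finset.prod_eq_zero_iff] at hPI
    obtain ⟨j, -, hj⟩ := hPI
    have hcpos : 0 < c := j.pos
    exact ⟨j, hz (by omega), sub_eq_zero.1 hj⟩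

theorem card_Ix (κ c r : ℕ) (hc : c + r = (κ + 2).choose 2) (hcκ : c ≤ κ) :
    Fintype.card (Ix κ c) = r := by
  have h1 : ∀ κ : ℕ, ∑ s : Fin κ, (s.1 + 1) = (κ + 1).choose 2 := by
    intro κ
    induction κ with
    | zero => simp
    | succ n ih =>
      rw [Fin.sum_univ_castSucc]
      simp only [Fin.val_castSucc, Fin.val_last]
      rw [ih, Nat.choose_succ_succ' (n + 1) 1, Nat.choose_one_right]
      ring
  have h2 : (κ + 2).choose 2 = (κ + 1) + (κ + 1).choose 2 := by
    rw [Nat.choose_succ_succ' (κ + 1) 1, Nat.choose_one_right]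
  rw [Fintype.card_sum, Fintype.card_sigma]
  simp only [Fintype.card_fin]
  rw [h1]
  omega

/-- The points. -/
def pt (k : Type) [Field k] (n c : ℕ) (α : Fin n → k) (β : Fin c → k) :
    (Fin n × k) ⊕ (Unit ⊕ Fin c) → Fin 3 → k
  | Sum.inl (i, a) => ![a, α i, 1]
  | Sum.inr (Sum.inl _) => ![1, 0, 0]
  | Sum.inr (Sum.inr j) => ![β j, 1, 0]

theorem pt_ne (k : Type) [Field k] (n c : ℕ) (α : Fin n → k) (β : Fin c → k)
    (s : (Fin n × k) ⊕ (Unit ⊕ Fin c)) : pt k n c α β s ≠ 0 := by
  intro h
  rcases s with ⟨i, a⟩ | u | j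
  · have := congrFun h 2
    simp [pt] at this
  · have := congrFun h 0
    simp [pt] at this
  · have := congrFun h 1
    simp [pt] at this

theorem pt_inj (k : Type) [Field k] (n c : ℕ) (α : Fin n → k) (β : Fin c → k)
    (hα : Function.Injective α) (hβ : Function.Injective β) :
    Function.Injective (fun s => Projectivization.mk k (pt k n c α β s) (pt_ne k n c α β s)) := by
  intro s t h
  rw [Projectivization.mk_eq_mk_iff'] at h
  obtain ⟨a, ha⟩ := h
  have h0 := congrFun ha 0
  have h1 := congrFun ha 1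
  have h2 := congrFun ha 2
  rcases s with ⟨i, b⟩ | u | j <;> rcases t with ⟨i', b'⟩ | u' | j'
  · simp [pt] at h0 h1 h2
    subst h2
    rw [one_mul] at h0 h1
    rw [h0, hα h1]
  · simp [pt] at h0 h1 h2
  · simp [pt] at h0 h1 h2
  · simp [pt] at h0 h1 h2
    rw [h2] at h0
    simp at h0
  · rfl
  · simp [pt] at h0 h1 h2
    rw [h1] at h0
    simp at h0
  · simp [pt] at h0 h1 h2
    rw [h2] at h1
    simp at h1
  · simp [pt] at h0 h1 h2
  · simp [pt] at h0 h1 h2
    rw [h1, one_mul] at h0
    rw [hβ h0]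

theorem taskCons : TaskCons := by
  classical
  intro k _ _ d r κ hd hdq hκd hr1 hr2
  have h2 : (κ + 2).choose 2 = (κ + 1) + (κ + 1).choose 2 := by
    rw [Nat.choose_succ_succ' (κ + 1) 1, Nat.choose_one_right]
  obtain ⟨c, hc⟩ : ∃ c, c + r = (κ + 2).choose 2 := ⟨(κ + 2).choose 2 - r, by omega⟩
  have hcκ : c ≤ κ := by omega
  obtain ⟨α⟩ := Function.Embedding.nonempty_of_card_le (α := Fin (d - κ)) (β := k) (by
    rw [Fintype.card_fin]; omega)
  obtain ⟨β⟩ := Function.Embedding.nonempty_of_card_le (α := Fin c) (β := k) (by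
    rw [Fintype.card_fin]; omega)
  set n := d - κ with hn
  let e : Fin r ≃ Ix κ c := (Fintype.equivFinOfCardEq (card_Ix κ c r hc hcκ)).symm
  have hall : ∀ Pr : Ix κ c → Prop, (∀ i : Fin r, Pr (e i)) ↔ ∀ t, Pr t := by
    intro Pr
    exact ⟨fun h t => by have := h (e.symm t); rwa [e.apply_symm_apply] at this, fun h i => h _⟩
  -- the points lie in the zero set
  have hin : ∀ s : (Fin n × k) ⊕ (Unit ⊕ Fin c), (0 < n ∨ ∃ j, s = Sum.inr (Sum.inr j)) →
      Projectivization.mk k (pt k n c α β s) (pt_ne k n c α β s) ∈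
      {x : Projectivization k (Fin 3 → k) | ∀ i : Fin r, MvPolynomial.eval x.rep
        (PL k n α * T k κ c β (e i)) = 0} := by
    intro s hs
    obtain ⟨a, ha⟩ := Projectivization.exists_smul_eq_mk_rep k (pt k n c α β s) (pt_ne k n c α β s)
    intro i
    show MvPolynomial.eval (Projectivization.mk k (pt k n c α β s) (pt_ne k n c α β s)).rep _ = 0
    rw [← ha]
    have h := zeros k k n κ c α β ((a : kˣ) • pt k n c α β s) (by
      rcases s with ⟨i, b⟩ | u | j
      · left
        refine ⟨i, ?_⟩
        simp [pt, Units.smul_def, mul_comm]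
      · left
        rcases hs with hs | ⟨j, hj⟩
        · exact ⟨⟨0, hs⟩, by simp [pt, Units.smul_def]⟩
        · simp at hj
      · right
        refine ⟨j, ?_, ?_⟩
        · simp [pt, Units.smul_def]
        · simp [pt, Units.smul_def, mul_comm]) (e i)
    rw [← MvPolynomial.coe_aeval_eq_eval]
    exact h
  have hinj := pt_inj k n c α β α.injective β.injective
  refine ⟨fun i => PL k n α * T k κ c β (e i), ?_, ?_, ?_, ?_, ?_⟩
  · intro i
    have h := (PL_hom k n α).mul (T_hom k κ c hcκ β (e i))
    have e1 : n + κ = d := by omega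
    rwa [e1] at h
  · exact (mul_li k _ (PL_ne k n α) _ (T_li k κ c β)).comp e e.injective
  · intro hlt
    have h := Set.ncard_le_ncard (s := Set.range (fun s => Projectivization.mk k (pt k n c α β s)
      (pt_ne k n c α β s))) (by
        rintro _ ⟨s, rfl⟩
        exact hin s (Or.inl (by omega))) (Set.toFinite _)
    rw [← Nat.card_coe_set_eq, Nat.card_range_of_injective hinj] at h
    simp only [Nat.card_eq_fintype_card, Fintype.card_sum, Fintype.card_prod, Fintype.card_fin,
      Fintype.card_unit] at h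
    beta_reduce
    omega
  · intro heq
    have h := Set.ncard_le_ncard (s := Set.range (fun j : Fin c => Projectivization.mk k
      (pt k n c α β (Sum.inr (Sum.inr j))) (pt_ne k n c α β (Sum.inr (Sum.inr j))))) (by
        rintro _ ⟨j, rfl⟩
        exact hin _ (Or.inr ⟨j, rfl⟩)) (Set.toFinite _)
    rw [← Nat.card_coe_set_eq, Nat.card_range_of_injective (f := fun j : Fin c =>
      Projectivization.mk k (pt k n c α β (Sum.inr (Sum.inr j)))
      (pt_ne k n c α β (Sum.inr (Sum.inr j)))) (fun a b hab => by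
        have := hinj hab
        simpa using this)] at h
    simp only [Nat.card_eq_fintype_card, Fintype.card_fin] at h
    beta_reduce
    subst heq
    omega
  · refine ⟨Finset.univ.image (fun i : Fin n => ![0, 1, - α i]),
      Finset.univ.image (fun j : Fin c => ![β j, 1, 0]), ?_, ?_, ?_⟩
    · intro l hl
      obtain ⟨i, -, rfl⟩ := Finset.mem_image.1 hl
      intro h
      have := congrFun h 1
      simp at this
    · intro l hl
      obtain ⟨i, -, rfl⟩ := Finset.mem_image.1 hl
      intro h
      have := congrFun h 1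
      simp at this
    · intro x hx
      have hA := hall (fun t => aeval x (PL k n α * T k κ c β t) = 0)
      rw [hA]
      constructor
      · intro h
        rcases zeros_conv k (AlgebraicClosure k) n κ c hcκ α β x hx h with ⟨i, hi⟩ | ⟨j, hj, hj'⟩
        · left
          refine ⟨_, Finset.mem_image_of_mem _ (Finset.mem_univ i), ?_⟩
          simp [Fin.sum_univ_three, hi]
        · right
          refine ⟨_, Finset.mem_image_of_mem _ (Finset.mem_univ j), x 1, ?_⟩
          intro u
          fin_cases u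
          · simp [hj', mul_comm]
          · simp
          · simp [hj]
      · intro h
        apply zeros
        rcases h with ⟨l, hl, h⟩ | ⟨p, hp, t, ht⟩
        · left
          obtain ⟨i, -, rfl⟩ := Finset.mem_image.1 hl
          refine ⟨i, ?_⟩
          simp [Fin.sum_univ_three] at h
          linear_combination h
        · right
          obtain ⟨j, -, rfl⟩ := Finset.mem_image.1 hp
          have h0 := ht 0
          have h1 := ht 1
          have h2 := ht 2
          simp at h0 h1 h2
          refine ⟨j, h2, ?_⟩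
          rw [h0, h1, mul_comm]

end Pool.Agent.H511R3.BOG
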